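import Pool.Agent.TH475.FL.Cls
import Pool.Agent.TH325.FR.Main

/-!
Surfaces: circuits of logarithmic length (helper475; Moore bound by helper325).
-/

set_option autoImplicit false
set_option linter.unusedSectionVars false

open Finset

namespace Pool.Agent.TH475.FL

open Pool.Agent.H753R2.FR Pool.Agent.TH676.Z Pool.Agent.TH676.Z.Crit

variable {V E : Type} [Fintype V] [DecidableEq V] [Fintype E] [DecidableEq E]

theorem mem_Nv_of {s d : E → V} {e : E} (he : s e ≠ d e) : s e ∈ Nv s d ∧ d e ∈ Nv s d := by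
  constructor
  · refine mem_filter.2 ⟨mem_univ _, e, mem_crs.2 ?_⟩
    rw [mem_singleton, mem_singleton]
    exact fun h1 => he (h1.1 rfl).symm
  · refine mem_filter.2 ⟨mem_univ _, e, mem_crs.2 ?_⟩
    rw [mem_singleton, mem_singleton]
    exact fun h1 => he (h1.2 rfl)

/-- the graph without loops and isolated vertices -/
def sg (s d : E → V) : MG {v // v ∈ Nv s d} {e // e ∈ nl s d} :=
  ⟨fun e => ⟨s e.1, (mem_Nv_of (mem_nl.1 e.2)).1⟩, fun e => ⟨d e.1, (mem_Nv_of (mem_nl.1 e.2)).2⟩⟩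

theorem sg_deg {s d : E → V} (hcut : ∀ v : V, crs s d {v} ≠ ∅ → 3 ≤ (crs s d {v}).card)
    (v : {v // v ∈ Nv s d}) : 3 ≤ (cut (sg s d) {v} {v}ᶜ).card := by
  classical
  have h1 := hcut v.1 (nonempty_iff_ne_empty.1 (mem_filter.1 v.2).2)
  have h2 : crs s d {v.1} ⊆ (cut (sg s d) {v} {v}ᶜ).map (Function.Embedding.subtype _) := by
    intro e he
    have h3 := mem_crs.1 he
    rw [mem_singleton, mem_singleton] at h3
    have hne : s e ≠ d e := fun h => h3 (by rw [h])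
    rw [mem_map]
    refine ⟨⟨e, mem_nl.2 hne⟩, ?_, rfl⟩
    rw [cut, mem_filter]
    refine ⟨mem_univ _, ?_⟩
    simp only [sg, mem_singleton, mem_compl, Subtype.ext_iff]
    by_cases h4 : s e = v.1
    · left
      exact ⟨h4, fun h5 => hne (h4.trans h5.symm)⟩
    · right
      refine ⟨h4, ?_⟩
      by_contra h5
      exact h3 ⟨fun h => absurd h h4, fun h => absurd h h5⟩
  have h3 := card_le_card h2
  rw [card_map] at h3
  omega

theorem sg_conn {s d : E → V} (A : Finset {e // e ∈ nl s d}) (u v : {v // v ∈ Nv s d})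
    (h : conn (sg s d) A u v) :
    conn (gm s d) (A.map (Function.Embedding.subtype _)) u.1 v.1 := by
  have h1 : conn (sg s d) A ≤
      Setoid.comap Subtype.val (conn (gm s d) (A.map (Function.Embedding.subtype _))) := by
    refine (conn_le_iff _).2 fun e he => ?_
    exact (conn_le_iff (gm s d)).1 le_rfl e.1 (mem_map.2 ⟨e, he, rfl⟩)
  exact h1 h

theorem sg_circ {s d : E → V} {C : Finset {e // e ∈ nl s d}} (hC : C.Nonempty)
    (hc : Pool.Agent.TH325.FR.Circ (sg s d) ⊥ C) :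
    Cyc s d (C.map (Function.Embedding.subtype _)) := by
  classical
  refine ⟨hC.map, ?_, ?_⟩
  · intro e he
    obtain ⟨f, _, rfl⟩ := mem_map.1 he
    exact mem_nl.1 f.2
  · intro e he
    obtain ⟨f, hf, rfl⟩ := mem_map.1 he
    have h1 := hc f hf
    rw [bot_sup_eq] at h1
    have h2 := sg_conn _ _ _ h1
    rw [map_erase] at h2
    exact h2

theorem moore_even {s d : E → V} (hcut : ∀ v : V, crs s d {v} ≠ ∅ → 3 ≤ (crs s d {v}).card)
    (hnl : ∃ e, s e ≠ d e) (r : ℕ) (hn : (Nv s d).card + 2 < 3 * 2 ^ r) :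
    ∃ C, Cyc s d C ∧ C.card ≤ 2 * r := by
  classical
  obtain ⟨e, he⟩ := hnl
  haveI : Nonempty {v // v ∈ Nv s d} := ⟨⟨s e, (mem_Nv_of he).1⟩⟩
  obtain ⟨C, h1, h2, h3⟩ := Pool.Agent.TH325.FR.short_circ_even (sg s d) (sg_deg hcut) r
    (by rw [Fintype.card_coe]; exact hn)
  exact ⟨_, sg_circ h1 h3, by rw [card_map]; exact h2⟩

theorem moore_odd {s d : E → V} (hcut : ∀ v : V, crs s d {v} ≠ ∅ → 3 ≤ (crs s d {v}).card)
    (hnl : ∃ e, s e ≠ d e) (r : ℕ) (hn : (Nv s d).card + 2 < 4 * 2 ^ r) :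
    ∃ C, Cyc s d C ∧ C.card ≤ 2 * r + 1 := by
  classical
  obtain ⟨e, he⟩ := hnl
  haveI : Nonempty {v // v ∈ Nv s d} := ⟨⟨s e, (mem_Nv_of he).1⟩⟩
  obtain ⟨C, h1, h2, h3⟩ := Pool.Agent.TH325.FR.short_circ_odd (sg s d) (sg_deg hcut)
    (fun e h => mem_nl.1 e.2 (Subtype.ext_iff.1 h)) r
    (by rw [Fintype.card_coe]; exact hn)
  exact ⟨_, sg_circ h1 h3, by rw [card_map]; exact h2⟩

/-- the number of vertices of a graph on the surface without circuits of length at most `i + 6` -/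
theorem num2 {m n r z h i : ℕ} (h1 : m + 1 ≤ z + n) (h2 : 3 * n ≤ 2 * m)
    (h4 : 1 ≤ r → (i + 7) * (r + 1) ≤ 2 * m) (h5 : z ≤ r + h) (h6 : i + 7 ≤ n) :
    ((i : ℤ) + 1) * n ≤ 2 * (i + 7) * ((h : ℤ) - 2) := by
  rcases Nat.eq_zero_or_pos r with h' | h'
  · have h7 : m + 1 ≤ h + n := by omega
    have h8 : (n : ℤ) ≤ 2 * h - 2 := by omega
    have h9 : (i : ℤ) + 7 ≤ n := by exact_mod_cast h6
    nlinarith
  · have h7 := h4 h'
    have h8 : m + 1 ≤ r + h + n := by omega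
    have e7 : ((i : ℤ) + 7) * (r + 1) ≤ 2 * m := by exact_mod_cast h7
    have e8 : (m : ℤ) + 1 ≤ r + h + n := by exact_mod_cast h8
    have e2 : 3 * (n : ℤ) ≤ 2 * m := by exact_mod_cast h2
    have ei : (0 : ℤ) ≤ i := by positivity
    have a1 : ((i : ℤ) + 7) * (m + 2 - h - n) ≤ ((i : ℤ) + 7) * (r + 1) :=
      mul_le_mul_of_nonneg_left (by linarith) (by linarith)
    have a2 : ((i : ℤ) + 5) * (3 * n) ≤ ((i : ℤ) + 5) * (2 * m) :=
      mul_le_mul_of_nonneg_left e2 (by linarith)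
    nlinarith

theorem sf_n {h i : ℕ} (s d : E → V) (hS : Sf h s d)
    (hcut : ∀ Y, crs s d Y ≠ ∅ → 3 ≤ (crs s d Y).card)
    (hnl : ∃ e, s e ≠ d e) (hno : ¬ ∃ C, Cyc s d C ∧ C.card ≤ i + 6) :
    ((i : ℤ) + 1) * (Nv s d).card ≤ 2 * (i + 7) * ((h : ℤ) - 2) := by
  classical
  have hg : ∀ x ∈ ZF s d (nl s d), x ≠ 0 → i + 7 ≤ (supp x).card := by
    intro x hx h0
    by_contra hlt
    exact hno ⟨supp x, cyc_supp (fun e he => mem_nl.1 he) hx h0, by omega⟩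
  obtain ⟨c, K, k1, k2, k3⟩ := hS
  obtain ⟨e0, he0⟩ := hnl
  have hmemN : ∀ e, s e ≠ d e → s e ∈ Nv s d ∧ d e ∈ Nv s d := fun e he => mem_Nv_of he
  have hNne : (Nv s d).Nonempty := ⟨s e0, (hmemN e0 he0).1⟩
  have e1 := dim V E s d (nl s d) (Nv s d) hNne (fun e he => hmemN e (mem_nl.1 he))
  have e2 := deg s d (fun v => hcut {v})
  have e4 := facesG V E s d (nl s d) c (i + 7) K k1 k2 hg
  have hm : 0 < (Nv s d).card := card_pos.2 hNne
  have hx : ∃ x ∈ ZF s d (nl s d), x ≠ 0 := by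
    by_contra hall
    push Not at hall
    have hb : ZF s d (nl s d) = ⊥ := (Submodule.eq_bot_iff _).2 hall
    rw [hb, finrank_bot] at e1
    omega
  have e6 := girth_le dim hNne (fun e he => hmemN e (mem_nl.1 he)) hg hx
  exact num2 e1 e2 e4 k3 e6

theorem sf_even {h j : ℕ} (hh : (2 * (j : ℤ) + 7) * ((h : ℤ) - 2) < (2 * j + 1) * (12 * 2 ^ j - 1))
    (s d : E → V) (hS : Sf h s d) (hcut : ∀ Y, crs s d Y ≠ ∅ → 3 ≤ (crs s d Y).card)
    (hnl : ∃ e, s e ≠ d e) : ∃ C, Cyc s d C ∧ C.card ≤ 2 * j + 6 := by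
  by_contra hno
  have h1 := sf_n (i := 2 * j) s d hS hcut hnl hno
  have h2 : ¬ (Nv s d).card + 2 < 3 * 2 ^ (j + 3) := fun h =>
    hno (by
      obtain ⟨C, hC, hc⟩ := moore_even (fun v => hcut {v}) hnl (j + 3) h
      exact ⟨C, hC, by omega⟩)
  have h3 : (3 : ℤ) * 2 ^ (j + 3) ≤ (Nv s d).card + 2 := by
    have := not_lt.1 h2
    exact_mod_cast this
  have h4 : (3 : ℤ) * 2 ^ (j + 3) = 24 * 2 ^ j := by ring
  rw [h4] at h3
  push_cast at h1
  have h5 : (2 * (j : ℤ) + 1) * (24 * 2 ^ j - 2) ≤ (2 * j + 1) * (Nv s d).card :=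
    mul_le_mul_of_nonneg_left (by linarith) (by positivity)
  nlinarith

theorem sf_odd {h j : ℕ} (hh : ((j : ℤ) + 4) * ((h : ℤ) - 2) < (j + 1) * (16 * 2 ^ j - 1))
    (s d : E → V) (hS : Sf h s d) (hcut : ∀ Y, crs s d Y ≠ ∅ → 3 ≤ (crs s d Y).card)
    (hnl : ∃ e, s e ≠ d e) : ∃ C, Cyc s d C ∧ C.card ≤ 2 * j + 7 := by
  by_contra hno
  have h1 := sf_n (i := 2 * j + 1) s d hS hcut hnl hno
  have h2 : ¬ (Nv s d).card + 2 < 4 * 2 ^ (j + 3) := fun h =>
    hno (by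
      obtain ⟨C, hC, hc⟩ := moore_odd (fun v => hcut {v}) hnl (j + 3) h
      exact ⟨C, hC, by omega⟩)
  have h3 : (4 : ℤ) * 2 ^ (j + 3) ≤ (Nv s d).card + 2 := by
    have := not_lt.1 h2
    exact_mod_cast this
  have h4 : (4 : ℤ) * 2 ^ (j + 3) = 32 * 2 ^ j := by ring
  rw [h4] at h3
  push_cast at h1
  have h5 : (2 * (j : ℤ) + 2) * (32 * 2 ^ j - 2) ≤ (2 * j + 2) * (Nv s d).card :=
    mul_le_mul_of_nonneg_left (by linarith) (by positivity)
  nlinarith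

theorem pos_even {h j : ℕ} (hh : (2 * (j : ℤ) + 7) * ((h : ℤ) - 2) < (2 * j + 1) * (12 * 2 ^ j - 1))
    {q : ℝ} (hq : 2 * (j : ℝ) + 6 < q) {src dst : E → V} (hS : Sf h src dst)
    (hb : Br src dst ∅ ∅) : 0 < m (gm src dst) q ⊥ univ := by
  have h2 : (0 : ℝ) ≤ j := by positivity
  exact pos (sfMC h) (2 * j + 6) (by linarith) (by push_cast; exact hq)
    (fun s d h1 h2 h3 => sf_even hh s d h1 h2 h3) hS hb

theorem pos_odd {h j : ℕ} (hh : ((j : ℤ) + 4) * ((h : ℤ) - 2) < (j + 1) * (16 * 2 ^ j - 1))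
    {q : ℝ} (hq : 2 * (j : ℝ) + 7 < q) {src dst : E → V} (hS : Sf h src dst)
    (hb : Br src dst ∅ ∅) : 0 < m (gm src dst) q ⊥ univ := by
  have h2 : (0 : ℝ) ≤ j := by positivity
  exact pos (sfMC h) (2 * j + 7) (by linarith) (by push_cast; exact hq)
    (fun s d h1 h2 h3 => sf_odd hh s d h1 h2 h3) hS hb

/-- the logarithmic bound -/
theorem pos_log {h : ℕ} (h4 : 4 ≤ h) {q : ℝ} (hq : 6 < q) (hl : 4 * (h : ℝ) < 2 ^ (q / 2))
    {src dst : E → V} (hS : Sf h src dst)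
    (hb : Br src dst ∅ ∅) : 0 < m (gm src dst) q ⊥ univ := by
  have h1 : (((8 * h - 2 : ℕ) : ℕ) : ℝ) + 2 < (2 : ℝ) ^ (q / 2 + 1) := by
    rw [Nat.cast_sub (by omega), Real.rpow_add (by norm_num), Real.rpow_one]
    push_cast
    linarith
  obtain ⟨r, ⟨h5, h6⟩ | ⟨h5, h6⟩⟩ := Pool.Agent.TH325.FR.moore_of_log (by linarith) h1
  · have h7 : 8 * h < 3 * 2 ^ r := by omega
    have h8 : 4 ≤ r := by
      by_contra hr
      have : r = 0 ∨ r = 1 ∨ r = 2 ∨ r = 3 := by omega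
      rcases this with rfl | rfl | rfl | rfl <;> omega
    obtain ⟨j, rfl⟩ : ∃ j, r = j + 3 := ⟨r - 3, by omega⟩
    refine pos_even (j := j) ?_ (by push_cast at h5; linarith) hS hb
    have h9 : 8 * (h : ℤ) < 24 * 2 ^ j := by
      have : (8 : ℤ) * h < 3 * 2 ^ (j + 3) := by exact_mod_cast h7
      have e : (3 : ℤ) * 2 ^ (j + 3) = 24 * 2 ^ j := by ring
      linarith
    have hj : (1 : ℤ) ≤ j := by
      have : 1 ≤ j := by omega
      exact_mod_cast this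
    have hh4 : (4 : ℤ) ≤ h := by exact_mod_cast h4
    have h10 : (2 * (j : ℤ) + 7) * (h - 2) ≤ (6 * j + 3) * (h - 2) :=
      mul_le_mul_of_nonneg_right (by linarith) (by linarith)
    have h11 : (2 * (j : ℤ) + 1) * (3 * (h - 2)) < (2 * j + 1) * (12 * 2 ^ j - 1) :=
      mul_lt_mul_of_pos_left (by linarith) (by linarith)
    linarith
  · have h7 : 8 * h < 4 * 2 ^ r := by omega
    have h8 : 4 ≤ r := by
      by_contra hr
      have : r = 0 ∨ r = 1 ∨ r = 2 ∨ r = 3 := by omega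
      rcases this with rfl | rfl | rfl | rfl <;> omega
    obtain ⟨j, rfl⟩ : ∃ j, r = j + 3 := ⟨r - 3, by omega⟩
    refine pos_odd (j := j) ?_ (by push_cast at h5; linarith) hS hb
    have h9 : 8 * (h : ℤ) < 32 * 2 ^ j := by
      have : (8 : ℤ) * h < 4 * 2 ^ (j + 3) := by exact_mod_cast h7
      have e : (4 : ℤ) * 2 ^ (j + 3) = 32 * 2 ^ j := by ring
      linarith
    have hj : (1 : ℤ) ≤ j := by
      have : 1 ≤ j := by omega
      exact_mod_cast this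
    have hh4 : (4 : ℤ) ≤ h := by exact_mod_cast h4
    have h10 : ((j : ℤ) + 4) * (h - 2) ≤ (4 * j + 4) * (h - 2) :=
      mul_le_mul_of_nonneg_right (by linarith) (by linarith)
    have h11 : ((j : ℤ) + 1) * (4 * (h - 2)) < (j + 1) * (16 * 2 ^ j - 1) :=
      mul_lt_mul_of_pos_left (by linarith) (by linarith)
    linarith

end Pool.Agent.TH475.FL
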