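import Pool.Agent.TH475.FL.Ind
import Pool.Agent.TH676.Z.Gi

/-!
A graph without short circuits and without small cuts has girth at least seven and minimum degree at
least three (adapted from `Pool/Agent/TH676/Z/Gi.lean` of helper676).
-/

set_option autoImplicit false
set_option linter.unusedSectionVars false

namespace Pool.Agent.TH475.FL

open Pool.Agent.TH676.Z Pool.Agent.TH676.Z.GiAux

/-- no circuits of length two to six -/
def NoC {V E : Type} (src dst : E → V) : Prop :=
  ∀ k : ℕ, k ≤ 4 → ∀ (v : Fin (k + 2) → V) (ed : Fin (k + 2) → E),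
    Function.Injective v → Function.Injective ed →
    (∀ i, Jn src dst (ed i) (v i) (v (i + 1))) → False

namespace Circ

variable {V E : Type} {src dst : E → V} [Fintype V] [DecidableEq V] [Fintype E] [DecidableEq E]

/-- no parallel edges -/
theorem no_par (H : NoC src dst) {e e' : E} {x y : V} (hxy : x ≠ y)
    (h : Jn src dst e x y) (h' : Jn src dst e' x y) : e = e' := by
  by_contra hne
  refine H 0 (by norm_num) ![x, y] ![e, e'] ?_ ?_ ?_
  · intro i j hij
    fin_cases i <;> fin_cases j <;> simp_all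
  · intro i j hij
    fin_cases i <;> fin_cases j <;> simp_all
  · intro i
    fin_cases i
    · exact h
    · exact jn_symm h'

/-- no circuits of length three to six -/
theorem no_circ (H : NoC src dst) {k : ℕ} (hk1 : 1 ≤ k) (hk : k ≤ 4)
    (v : Fin (k + 2) → V) (hv : Function.Injective v)
    (h : ∀ i, Adj src dst (v i) (v (i + 1))) : False := by
  choose ed hed using fun i => (h i).2
  refine H k hk v ed hv ?_ hed
  intro i j hij
  have h1 : Jn src dst (ed i) (v i) (v (i + 1)) := hed i
  have h2 : Jn src dst (ed i) (v j) (v (j + 1)) := by rw [hij]; exact hed j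
  rcases jn_eq h1 h2 with ⟨h3, _⟩ | ⟨h3, h4⟩
  · exact hv h3
  · exfalso
    have h5 := hv h3
    have h6 := hv h4
    rw [h5] at h6
    have h7 : (1 : Fin (k + 2)) + 1 = 0 := by
      have h8 : j + (1 + 1) = j + 0 := by rw [← add_assoc, h6, add_zero]
      exact add_left_cancel h8
    have h9 := congrArg Fin.val h7
    rw [Fin.val_add, Fin.val_one, Fin.val_zero, Nat.mod_eq_of_lt (by omega)] at h9
    omega

theorem c3 (H : NoC src dst) {a b c : V} (h1 : Adj src dst a b)
    (h2 : Adj src dst b c) (h3 : Adj src dst c a) : False := by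
  have a1 := h1.1
  have a2 := h2.1
  have a3 := h3.1
  refine no_circ H (k := 1) le_rfl (by norm_num) ![a, b, c] ?_ ?_
  · intro i j hij
    fin_cases i <;> fin_cases j <;> simp_all
  · intro i
    fin_cases i
    · exact h1
    · exact h2
    · exact h3

theorem c4 (H : NoC src dst) {a b c d : V} (h1 : Adj src dst a b)
    (h2 : Adj src dst b c) (h3 : Adj src dst c d) (h4 : Adj src dst d a) (hac : a ≠ c)
    (hbd : b ≠ d) : False := by
  have a1 := h1.1
  have a2 := h2.1
  have a3 := h3.1
  have a4 := h4.1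
  refine no_circ H (k := 2) (by norm_num) (by norm_num) ![a, b, c, d] ?_ ?_
  · intro i j hij
    fin_cases i <;> fin_cases j <;> simp_all
  · intro i
    fin_cases i
    · exact h1
    · exact h2
    · exact h3
    · exact h4

theorem c5 (H : NoC src dst) {a b c d e : V} (h1 : Adj src dst a b)
    (h2 : Adj src dst b c) (h3 : Adj src dst c d) (h4 : Adj src dst d e) (h6 : Adj src dst e a) :
    False := by
  have a1 := h1.1
  have a2 := h2.1
  have a3 := h3.1
  have a4 := h4.1
  have a5 := h6.1
  have b1 : a ≠ c := by rintro rfl; exact c3 H h3 h4 h6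
  have b2 : b ≠ d := by rintro rfl; exact c3 H h1 h4 h6
  have b3 : c ≠ e := by rintro rfl; exact c3 H h1 h2 h6
  have b4 : d ≠ a := by rintro rfl; exact c3 H h1 h2 h3
  have b5 : e ≠ b := by rintro rfl; exact c3 H h2 h3 h4
  refine no_circ H (k := 3) (by norm_num) (by norm_num) ![a, b, c, d, e] ?_ ?_
  · intro i j hij
    fin_cases i <;> fin_cases j <;> simp_all
  · intro i
    fin_cases i
    · exact h1
    · exact h2
    · exact h3
    · exact h4
    · exact h6

theorem c6 (H : NoC src dst) {a b c d e f : V} (h1 : Adj src dst a b)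
    (h2 : Adj src dst b c) (h3 : Adj src dst c d) (h4 : Adj src dst d e) (h6 : Adj src dst e f)
    (h7 : Adj src dst f a) (b1 : a ≠ c) (b2 : b ≠ d) (b3 : c ≠ e) (b4 : d ≠ f) (b5 : e ≠ a)
    (b6 : f ≠ b) : False := by
  have a1 := h1.1
  have a2 := h2.1
  have a3 := h3.1
  have a4 := h4.1
  have a5 := h6.1
  have a6 := h7.1
  have d1 : a ≠ d := by rintro rfl; exact c3 H h1 h2 h3
  have d2 : b ≠ e := by rintro rfl; exact c3 H h2 h3 h4
  have d3 : c ≠ f := by rintro rfl; exact c3 H h3 h4 h6
  refine no_circ H (k := 4) (by norm_num) (by norm_num) ![a, b, c, d, e, f] ?_ ?_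
  · intro i j hij
    fin_cases i <;> fin_cases j <;> simp_all
  · intro i
    fin_cases i
    · exact h1
    · exact h2
    · exact h3
    · exact h4
    · exact h6
    · exact h7

theorem mem_crs_singleton {e : E} {x : V} (h : e ∈ crs src dst {x}) :
    ∃ z, z ≠ x ∧ Jn src dst e x z := by
  unfold crs at h
  rw [Finset.mem_filter, Finset.mem_singleton, Finset.mem_singleton] at h
  have h1 := h.2
  by_cases h2 : src e = x
  · by_cases h3 : dst e = x
    · exact absurd ⟨fun _ => h3, fun _ => h2⟩ h1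
    · exact ⟨dst e, h3, Or.inl ⟨h2, rfl⟩⟩
  · by_cases h3 : dst e = x
    · exact ⟨src e, h2, Or.inr ⟨rfl, h3⟩⟩
    · exact absurd ⟨fun h4 => absurd h4 h2, fun h4 => absurd h4 h3⟩ h1

theorem three (hcut : ∀ Y, crs src dst Y ≠ ∅ → 3 ≤ (crs src dst Y).card) (H : NoC src dst) : Three (Adj src dst) := by
  intro x y hxy
  obtain ⟨hne, e, he⟩ := hxy
  have hse : src e ≠ dst e := by
    rcases he with ⟨h3, h4⟩ | ⟨h3, h4⟩
    · rw [h3, h4]; exact hne
    · rw [h3, h4]; exact hne.symm
  have hc := hcut {x} (by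
    intro h0
    have h1 : e ∈ crs src dst {x} := by
      unfold crs
      rw [Finset.mem_filter, Finset.mem_singleton, Finset.mem_singleton]
      refine ⟨Finset.mem_univ e, ?_⟩
      rcases he with ⟨h3, h4⟩ | ⟨h3, h4⟩
      · rw [h3, h4]
        exact fun h5 => hne (h5.1 rfl).symm
      · rw [h3, h4]
        exact fun h5 => hne (h5.2 rfl).symm
    rw [h0] at h1
    exact absurd h1 (Finset.notMem_empty e))
  obtain ⟨e1, m1, e2, m2, e3, m3, n12, n13, n23⟩ := Finset.two_lt_card.1
    (show 2 < (crs src dst {x}).card by omega)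
  obtain ⟨z1, hz1, j1⟩ := mem_crs_singleton m1
  obtain ⟨z2, hz2, j2⟩ := mem_crs_singleton m2
  obtain ⟨z3, hz3, j3⟩ := mem_crs_singleton m3
  refine ⟨z1, z2, z3, ⟨hz1.symm, e1, j1⟩, ⟨hz2.symm, e2, j2⟩, ⟨hz3.symm, e3, j3⟩, ?_, ?_, ?_⟩
  · rintro rfl
    exact n12 (no_par H hz1.symm j1 j2)
  · rintro rfl
    exact n13 (no_par H hz1.symm j1 j3)
  · rintro rfl
    exact n23 (no_par H hz2.symm j2 j3)

end Circ

variable {V E : Type} {src dst : E → V} [Fintype V] [DecidableEq V] [Fintype E] [DecidableEq E]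

theorem gi (H : NoC src dst) : Gi (Adj src dst) :=
  ⟨fun h => GiAux.adj_symm h, fun a h => h.1 rfl, fun a b c h1 h3 h4 => Circ.c3 H h1 h3 h4,
    fun a b c d h1 h3 h4 h6 h7 h8 => Circ.c4 H h1 h3 h4 h6 h7 h8,
    fun a b c d e h1 h3 h4 h6 h7 => Circ.c5 H h1 h3 h4 h6 h7,
    fun a b c d e f h1 h3 h4 h6 h7 h8 b1 b2 b3 b4 b5 b6 =>
      Circ.c6 H h1 h3 h4 h6 h7 h8 b1 b2 b3 b4 b5 b6⟩

open Pool.Agent.H753R2.FR Fin.NatCast Fin.CommRing in
/-- a circuit is a cyclic set -/
theorem cyc_of_circuit {k : ℕ} (v : Fin (k + 2) → V) (ed : Fin (k + 2) → E)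
    (hv : Function.Injective v) (hed : Function.Injective ed)
    (h : ∀ i, Jn src dst (ed i) (v i) (v (i + 1))) :
    Cyc src dst (Finset.univ.image ed) := by
  have hne : ∀ i : Fin (k + 2), i ≠ i + 1 := by
    intro i hi
    have h1 : (1 : Fin (k + 2)) = 0 := by
      have h2 : i + 1 = i + 0 := by rw [← hi, add_zero]
      exact add_left_cancel h2
    have h3 := congrArg Fin.val h1
    simp at h3
  refine ⟨⟨ed 0, Finset.mem_image_of_mem ed (Finset.mem_univ 0)⟩, ?_, ?_⟩
  · intro e he
    obtain ⟨i, -, rfl⟩ := Finset.mem_image.1 he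
    rcases h i with ⟨h1, h2⟩ | ⟨h1, h2⟩
    · rw [h1, h2]
      exact fun h3 => hne i (hv h3)
    · rw [h1, h2]
      exact fun h3 => hne i (hv h3.symm)
  · intro e he
    obtain ⟨i, -, rfl⟩ := Finset.mem_image.1 he
    set t := conn (gm src dst) ((Finset.univ.image ed).erase (ed i)) with ht
    have hstep : ∀ j, j ≠ i → t (v j) (v (j + 1)) := by
      intro j hj
      have h1 : t (src (ed j)) (dst (ed j)) := by
        have h2 := (conn_le_iff (gm src dst)).1 (le_refl t) (ed j) (Finset.mem_erase.2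
          ⟨fun h3 => hj (hed h3), Finset.mem_image_of_mem ed (Finset.mem_univ j)⟩)
        exact h2
      rcases h j with ⟨h2, h3⟩ | ⟨h2, h3⟩
      · rw [h2, h3] at h1
        exact h1
      · rw [h2, h3] at h1
        exact t.symm h1
    have hwalk : ∀ n : ℕ, n ≤ k + 1 → t (v (i + 1)) (v (i + 1 + (n : Fin (k + 2)))) := by
      intro n
      induction n with
      | zero =>
        intro _
        rw [Nat.cast_zero, add_zero]
      | succ n ih =>
        intro hn
        have h1 := ih (by omega)
        have h2 : i + 1 + (n : Fin (k + 2)) ≠ i := by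
          intro h3
          have h4 : (1 : Fin (k + 2)) + (n : Fin (k + 2)) = 0 := by
            have h5 : i + (1 + (n : Fin (k + 2))) = i + 0 := by rw [← add_assoc, h3, add_zero]
            exact add_left_cancel h5
          have h5 : ((n + 1 : ℕ) : Fin (k + 2)) = 0 := by
            calc ((n + 1 : ℕ) : Fin (k + 2)) = (n : Fin (k + 2)) + 1 := by
                  rw [Nat.cast_add, Nat.cast_one]
              _ = 1 + (n : Fin (k + 2)) := add_comm _ _
              _ = 0 := h4
          rw [Fin.natCast_eq_zero] at h5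
          have h6 := Nat.le_of_dvd (by omega) h5
          omega
        have h3 := hstep _ h2
        have h4 : i + 1 + ((n + 1 : ℕ) : Fin (k + 2)) = i + 1 + (n : Fin (k + 2)) + 1 := by
          rw [Nat.cast_add, Nat.cast_one, add_assoc (i + 1)]
        rw [h4]
        exact t.trans h1 h3
    have hlast : i + 1 + ((k + 1 : ℕ) : Fin (k + 2)) = i := by
      have h1 : (1 : Fin (k + 2)) + ((k + 1 : ℕ) : Fin (k + 2)) = 0 := by
        have h2 : ((k + 2 : ℕ) : Fin (k + 2)) = 0 := Fin.natCast_self (k + 2)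
        have h3 : ((1 + (k + 1) : ℕ) : Fin (k + 2)) = 1 + ((k + 1 : ℕ) : Fin (k + 2)) := by
          rw [Nat.cast_add, Nat.cast_one]
        have h4 : 1 + (k + 1) = k + 2 := by ring
        rw [h4] at h3
        rw [← h3]
        exact h2
      rw [add_assoc, h1, add_zero]
    have hfin := hwalk (k + 1) le_rfl
    rw [hlast] at hfin
    rcases h i with ⟨h2, h3⟩ | ⟨h2, h3⟩
    · rw [h2, h3]
      exact t.symm hfin
    · rw [h2, h3]
      exact hfin

theorem noC_of (H : ¬ ∃ C, Cyc src dst C ∧ C.card ≤ 6) : NoC src dst := by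
  intro k hk v ed hv hed h
  apply H
  refine ⟨_, cyc_of_circuit v ed hv hed h, ?_⟩
  have h1 := Finset.card_image_le (s := (Finset.univ : Finset (Fin (k + 2)))) (f := ed)
  rw [Finset.card_univ, Fintype.card_fin] at h1
  omega

end Pool.Agent.TH475.FL
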