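import Pool.Agent.TH475.FL.Ind
import Pool.Agent.TH676.Z.ApMC
import Pool.Agent.TH676.Z.MacCon
import Pool.Agent.TH676.Z.MacDel
import Pool.Agent.TH676.Z.FacesG

/-!
Graphs with MacLane's condition with defect `h` (helper475; uses the library of helper676).
-/

set_option autoImplicit false
set_option linter.unusedSectionVars false

open Finset

namespace Pool.Agent.TH475.FL

open Pool.Agent.H753R2.FR Pool.Agent.TH676.Z Pool.Agent.TH676.Z.Crit

variable {V E : Type} [Fintype V] [DecidableEq V] [Fintype E] [DecidableEq E]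

/-- the class -/
def Sf (h : ℕ) (src dst : E → V) : Prop := Mac h src dst (nl src dst)

open Pool.Agent.TH676.Z.ApMCx in
theorem sfMC (h : ℕ) : MC (V := V) (E := E) (Sf h) := by
  classical
  refine ⟨?_, ?_⟩
  · intro src dst e hM hne
    have hmem : ∀ d ∈ nl src (Pool.Agent.TH676.Z.lp src dst {e}), d ∈ nl src dst ∧
        Pool.Agent.TH676.Z.lp src dst {e} d = dst d := by
      intro d hd
      rw [nl_lp, mem_erase] at hd
      refine ⟨hd.2, ?_⟩
      unfold Pool.Agent.TH676.Z.lp
      rw [if_neg (by rw [mem_singleton]; exact hd.1)]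
    exact mac_congr _ _ _ _ _ _ (fun d hd => ⟨rfl, (hmem d hd).2⟩)
      (sub_mac macDel _ _ _ _ _ hM (fun d hd => (hmem d hd).1))
  · intro src dst e hM hne
    set F1 : Finset E := (nl src dst).filter
      (fun d => d = e ∨ ¬ Jn src dst d (src e) (dst e)) with hF1
    have hM1 : Mac h src dst F1 := sub_mac macDel _ _ _ _ _ hM (filter_subset _ _)
    have he : e ∈ F1 := by
      rw [hF1, mem_filter]
      exact ⟨mem_nl.2 hne, Or.inl rfl⟩
    have hM2 := macCon V E src dst F1 h e hM1 he hne (by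
      intro d hd hde
      rw [hF1, mem_filter] at hd
      rcases hd.2 with h | h
      · exact absurd h hde
      · exact h)
    refine sub_mac macDel _ _ _ _ _ hM2 ?_
    intro d hd
    have ha := mem_nl.1 hd
    simp only [Function.comp] at ha
    have hcu : ctr (src e) (dst e) (src e) = src e := by simp [ctr]
    have hcv : ctr (src e) (dst e) (dst e) = src e := by simp [ctr]
    have hde : d ≠ e := by
      rintro rfl
      rw [hcu, hcv] at ha
      exact ha rfl
    rw [mem_erase, hF1, mem_filter]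
    refine ⟨hde, mem_nl.2 (fun h => ha (by rw [h])), Or.inr ?_⟩
    rintro (⟨h3, h4⟩ | ⟨h3, h4⟩)
    · rw [h3, h4, hcu, hcv] at ha
      exact ha rfl
    · rw [h3, h4, hcu, hcv] at ha
      exact ha rfl

/-- the support of a nonzero element of the cycle space -/
def supp (x : E → ZMod 2) : Finset E := univ.filter (fun e => x e ≠ 0)

theorem cyc_supp {src dst : E → V} {F : Finset E} (hF : ∀ e ∈ F, src e ≠ dst e) {x : E → ZMod 2}
    (hx : x ∈ ZF src dst F) (h0 : x ≠ 0) : Cyc src dst (supp x) := by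
  classical
  obtain ⟨hx1, hx2⟩ := hx
  have hsF : ∀ e ∈ supp x, e ∈ F := by
    intro e he
    by_contra h
    exact (mem_filter.1 he).2 (hx1 e h)
  refine ⟨?_, fun e he => hF e (hsF e he), ?_⟩
  · obtain ⟨e, he⟩ := Function.ne_iff.1 h0
    exact ⟨e, mem_filter.2 ⟨mem_univ e, he⟩⟩
  · intro e he
    set t := conn (gm src dst) ((supp x).erase e) with ht
    by_contra hcon
    set Y : Finset V := univ.filter (fun v => t (src e) v) with hY
    have mY : ∀ v, v ∈ Y ↔ t (src e) v := fun v => by
      rw [hY, mem_filter]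
      exact ⟨fun h => h.2, fun h => ⟨mem_univ v, h⟩⟩
    have h1 : src e ∈ Y := (mY _).2 (t.refl _)
    have h2 : dst e ∉ Y := fun h => hcon ((mY _).1 h)
    have h3 : ∀ f ∈ (supp x).erase e, (src f ∈ Y ↔ dst f ∈ Y) := by
      intro f hf
      have h4 : t (src f) (dst f) := (conn_le_iff (gm src dst)).1 (le_refl t) f hf
      rw [mY, mY]
      exact ⟨fun h => t.trans h h4, fun h => t.trans h (t.symm h4)⟩
    have h4 : ∑ v ∈ Y, bd2 src dst x v = 0 := sum_eq_zero fun v _ => hx2 v
    have h5 : ∑ v ∈ Y, bd2 src dst x v =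
        ∑ f, ((if src f ∈ Y then x f else 0) + (if dst f ∈ Y then x f else 0)) := by
      unfold bd2
      rw [sum_comm]
      refine sum_congr rfl fun f _ => ?_
      rw [sum_add_distrib, sum_ite_eq, sum_ite_eq]
    rw [h5, sum_eq_single e] at h4
    · rw [if_pos h1, if_neg h2, add_zero] at h4
      exact (mem_filter.1 he).2 h4
    · intro f _ hfe
      by_cases hf : f ∈ supp x
      · have h6 := h3 f (mem_erase.2 ⟨hfe, hf⟩)
        have h7 : ∀ a : ZMod 2, a + a = 0 := by decide
        by_cases h8 : src f ∈ Y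
        · rw [if_pos h8, if_pos (h6.1 h8)]
          exact h7 _
        · rw [if_neg h8, if_neg (fun h => h8 (h6.2 h)), add_zero]
      · have h6 : x f = 0 := by
          by_contra h
          exact hf (mem_filter.2 ⟨mem_univ f, h⟩)
        rw [h6]
        simp
    · intro h
      exact absurd (mem_univ e) h

/-- the non-isolated vertices -/
noncomputable def Nv (src dst : E → V) : Finset V := univ.filter (fun v => (crs src dst {v}).Nonempty)

theorem deg (src dst : E → V)
    (hcut : ∀ v : V, crs src dst {v} ≠ ∅ → 3 ≤ (crs src dst {v}).card) :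
    3 * (Nv src dst).card ≤ 2 * (nl src dst).card := by
  classical
  have h1 : (Nv src dst).card • 3 ≤ ∑ v ∈ Nv src dst, (crs src dst {v}).card :=
    card_nsmul_le_sum _ _ _ fun v hv => hcut _ (nonempty_iff_ne_empty.1 (mem_filter.1 hv).2)
  have h2 : ∑ v ∈ Nv src dst, (crs src dst {v}).card ≤ ∑ v, (crs src dst {v}).card :=
    sum_le_univ_sum_of_nonneg fun _ => Nat.zero_le _
  have h3 : ∑ v, (crs src dst {v}).card =
      ∑ e, (univ.filter (fun v => e ∈ crs src dst {v})).card := by
    have h4 : ∀ v, (crs src dst {v}).card = ∑ e, if e ∈ crs src dst {v} then 1 else 0 := by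
      intro v
      rw [sum_ite_mem, univ_inter, card_eq_sum_ones]
    rw [sum_congr rfl fun v _ => h4 v, sum_comm]
    refine sum_congr rfl fun e _ => ?_
    rw [card_filter]
  have h4 : ∑ e, (univ.filter (fun v => e ∈ crs src dst {v})).card ≤
      ∑ e, if e ∈ nl src dst then 2 else 0 := by
    refine sum_le_sum fun e _ => ?_
    by_cases he : e ∈ nl src dst
    · rw [if_pos he]
      have h5 : univ.filter (fun v => e ∈ crs src dst {v}) ⊆ {src e, dst e} := by
        intro v hv
        have h6 := mem_crs.1 (mem_filter.1 hv).2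
        rw [mem_singleton, mem_singleton] at h6
        rw [mem_insert, mem_singleton]
        by_cases h7 : src e = v
        · exact Or.inl h7.symm
        · by_cases h8 : dst e = v
          · exact Or.inr h8.symm
          · exact absurd ⟨fun h => absurd h h7, fun h => absurd h h8⟩ h6
      exact (card_le_card h5).trans card_le_two
    · rw [if_neg he]
      have h5 : src e = dst e := by
        by_contra h
        exact he (mem_nl.2 h)
      rw [Nat.le_zero, card_eq_zero, filter_eq_empty_iff]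
      intro v _ h6
      exact mem_crs.1 h6 (by rw [h5])
  rw [sum_ite_mem, univ_inter, sum_const, smul_eq_mul] at h4
  rw [smul_eq_mul] at h1
  omega

/-- the number of vertices is at least the length of the shortest circuit -/
theorem girth_le (hdim : St_dim) {src dst : E → V} {F : Finset E} {N : Finset V} (hN : N.Nonempty)
    (hNF : ∀ e ∈ F, src e ∈ N ∧ dst e ∈ N) {g : ℕ}
    (hg : ∀ x ∈ ZF src dst F, x ≠ 0 → g ≤ (supp x).card) (hx : ∃ x ∈ ZF src dst F, x ≠ 0) :
    g ≤ N.card := by
  classical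
  -- a nonzero element with minimal support
  have hex : ∃ n : ℕ, ∃ x ∈ ZF src dst F, x ≠ 0 ∧ (supp x).card = n := by
    obtain ⟨x, h1, h2⟩ := hx
    exact ⟨_, x, h1, h2, rfl⟩
  obtain ⟨x, h1, h2, h3⟩ := Nat.find_spec hex
  have hmin : ∀ y ∈ ZF src dst F, y ≠ 0 → (supp x).card ≤ (supp y).card := by
    intro y h4 h5
    rw [h3]
    exact Nat.find_min' hex ⟨y, h4, h5, rfl⟩
  obtain ⟨e, he⟩ := Function.ne_iff.1 h2
  have heS : e ∈ supp x := mem_filter.2 ⟨mem_univ e, he⟩
  have hxF : ∀ f ∈ supp x, f ∈ F := by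
    intro f hf
    by_contra h
    exact (mem_filter.1 hf).2 (h1.1 f h)
  have hz : ZF src dst ((supp x).erase e) = ⊥ := by
    rw [Submodule.eq_bot_iff]
    intro y hy
    by_contra hy0
    have h4 : y ∈ ZF src dst F := by
      refine ⟨fun f hf => hy.1 f fun h => hf (hxF f (mem_of_mem_erase h)), hy.2⟩
    have h5 := hmin y h4 hy0
    have h6 : supp y ⊆ (supp x).erase e := by
      intro f hf
      by_contra h
      exact (mem_filter.1 hf).2 (hy.1 f h)
    have h7 := card_le_card h6
    rw [card_erase_of_mem heS] at h7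
    have h8 : 0 < (supp x).card := card_pos.2 ⟨e, heS⟩
    omega
  have h4 := hdim V E src dst ((supp x).erase e) N hN fun f hf => hNF f (hxF f (mem_of_mem_erase hf))
  rw [hz, finrank_bot, card_erase_of_mem heS] at h4
  have h5 := hg x h1 h2
  have h8 : 0 < (supp x).card := card_pos.2 ⟨e, heS⟩
  omega

/-- the numerical contradiction -/
theorem num {m n r z h k : ℕ} (hk : (h ≤ 1 ∧ k = 5) ∨ (2 ≤ h ∧ k = 2 * h + 2)) (h1 : m + 1 ≤ z + n)
    (h2 : 3 * n ≤ 2 * m) (h4 : 1 ≤ r → (k + 1) * (r + 1) ≤ 2 * m) (h5 : z ≤ r + h)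
    (h6 : k + 1 ≤ n) : False := by
  rcases hk with ⟨hh, rfl⟩ | ⟨hh, rfl⟩
  · rcases Nat.eq_zero_or_pos r with h | h'
    · omega
    · have := h4 h'
      omega
  · obtain ⟨j, rfl⟩ : ∃ j, h = j + 2 := ⟨h - 2, by omega⟩
    rcases Nat.eq_zero_or_pos r with h | h'
    · omega
    · have h7 := h4 h'
      -- (2 j + 7) (r + 1) ≤ 2 m, r + j + 2 ≥ m + 1 - n, n ≤ 2 m / 3, n ≥ 2 j + 7
      have h8 : m ≤ r + j + 1 + n := by omega
      have h9 : (2 * (j + 2) + 2 + 1) = 2 * j + 7 := by ring
      rw [h9] at h7 h6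
      -- m ≤ 3 (r + 1) + 3 j
      have h10 : m ≤ 3 * (r + 1) + 3 * j := by omega
      have h11 : 3 * (2 * j + 7) ≤ 2 * m := by omega
      nlinarith [Nat.mul_le_mul_left (2 * j + 7) h10, Nat.mul_le_mul_left j h11]

theorem sf_circ (hdim : St_dim) {h k : ℕ} (hk : (h ≤ 1 ∧ k = 5) ∨ (2 ≤ h ∧ k = 2 * h + 2))
    (s d : E → V) (hS : Sf h s d) (hcut : ∀ Y, crs s d Y ≠ ∅ → 3 ≤ (crs s d Y).card)
    (hnl : ∃ e, s e ≠ d e) : ∃ C, Cyc s d C ∧ C.card ≤ k := by
  classical
  by_contra hno
  have hg : ∀ x ∈ ZF s d (nl s d), x ≠ 0 → k + 1 ≤ (supp x).card := by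
    intro x hx h0
    by_contra hlt
    exact hno ⟨supp x, cyc_supp (fun e he => mem_nl.1 he) hx h0, by omega⟩
  obtain ⟨c, K, k1, k2, k3⟩ := hS
  obtain ⟨e0, he0⟩ := hnl
  have hmemN : ∀ e, s e ≠ d e → s e ∈ Nv s d ∧ d e ∈ Nv s d := by
    intro e he
    constructor
    · refine mem_filter.2 ⟨mem_univ _, e, mem_crs.2 ?_⟩
      rw [mem_singleton, mem_singleton]
      exact fun h1 => he (h1.1 rfl).symm
    · refine mem_filter.2 ⟨mem_univ _, e, mem_crs.2 ?_⟩
      rw [mem_singleton, mem_singleton]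
      exact fun h1 => he (h1.2 rfl)
  have hNne : (Nv s d).Nonempty := ⟨s e0, (hmemN e0 he0).1⟩
  have e1 := hdim V E s d (nl s d) (Nv s d) hNne (fun e he => hmemN e (mem_nl.1 he))
  have e2 := deg s d (fun v => hcut {v})
  have e4 := facesG V E s d (nl s d) c (k + 1) K k1 k2 hg
  have hm : 0 < (Nv s d).card := card_pos.2 hNne
  have hx : ∃ x ∈ ZF s d (nl s d), x ≠ 0 := by
    by_contra hall
    push Not at hall
    have hb : ZF s d (nl s d) = ⊥ := (Submodule.eq_bot_iff _).2 hall
    rw [hb, finrank_bot] at e1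
    omega
  have e6 := girth_le hdim hNne (fun e he => hmemN e (mem_nl.1 he)) hg hx
  exact num hk e1 e2 e4 k3 e6

end Pool.Agent.TH475.FL
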