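import Pool.Agent.TH475.FL.Circ
import Pool.Agent.TH475.FL.Sur
import Pool.Agent.TH676.Z.Dim
import Pool.Agent.TH676.Z.Apex
import Pool.Agent.TH676.Z.Even7
import Pool.Agent.TH676.Z.Faces
import Pool.Agent.TH676.Z.Deg
import Pool.Agent.TH676.Z.Ball
import Pool.Agent.TH497.PW.IntFlow

/-!
The classes: Euler genus three, one apex vertex, treewidth six (helper475; uses the library of
helper676).
-/

set_option autoImplicit false
set_option linter.unusedSectionVars false

open Finset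

namespace Pool.Agent.TH475.FL

open Pool.Agent.H753R2.FR Pool.Agent.TH676.Z Pool.Agent.TH676.Z.Crit

variable {V E : Type} [Fintype V] [DecidableEq V] [Fintype E] [DecidableEq E]

/-- defect at most three: no graphs with girth at least seven and minimum degree at least three -/
theorem sf3_false {h : ℕ} (hh : h ≤ 3) (s d : E → V) (hS : Sf h s d)
    (hcut : ∀ v : V, crs s d {v} ≠ ∅ → 3 ≤ (crs s d {v}).card)
    (hG : Gi (Adj s d)) (hT : Three (Adj s d))
    (hg : ∀ x ∈ ZF s d (nl s d), x ≠ 0 → 7 ≤ (supp x).card)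
    (hnl : ∃ e, s e ≠ d e) : False := by
  classical
  obtain ⟨c, K, k1, k2, k3⟩ := hS
  obtain ⟨e0, he0⟩ := hnl
  have hmemN : ∀ e, s e ≠ d e → s e ∈ Nv s d ∧ d e ∈ Nv s d := by
    intro e he
    constructor
    · refine mem_filter.2 ⟨mem_univ _, e, mem_crs.2 ?_⟩
      rw [mem_singleton, mem_singleton]
      exact fun h1 => he (h1.1 rfl).symm
    · refine mem_filter.2 ⟨mem_univ _, e, mem_crs.2 ?_⟩
      rw [mem_singleton, mem_singleton]
      exact fun h1 => he (h1.2 rfl)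
  have hNne : (Nv s d).Nonempty := ⟨s e0, (hmemN e0 he0).1⟩
  have e1 := dim V E s d (nl s d) (Nv s d) hNne (fun e he => hmemN e (mem_nl.1 he))
  have e2 := deg s d hcut
  have e4 := facesG V E s d (nl s d) c 7 K k1 k2 hg
  have e5 := ball V E s d (s e0) hG hT
  have ha0 : Adj s d (s e0) (d e0) := ⟨he0, e0, Or.inl ⟨rfl, rfl⟩⟩
  have e6 : 3 ≤ (Ns s d (s e0)).card := by
    obtain ⟨a, b, c, ha, hb, hc, hab, hac, hbc⟩ := hT _ _ ha0
    refine len_le (l := [a, b, c]) ?_ ?_
    · simp only [List.nodup_cons, List.mem_cons, List.not_mem_nil, or_false, not_or,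
        not_false_eq_true, List.nodup_nil, and_true]
      exact ⟨⟨hab, hac⟩, hbc⟩
    · intro x hx
      simp only [List.mem_cons, List.not_mem_nil, or_false] at hx
      unfold Ns
      rw [mem_filter]
      rcases hx with rfl | rfl | rfl
      · exact ⟨mem_univ _, ha⟩
      · exact ⟨mem_univ _, hb⟩
      · exact ⟨mem_univ _, hc⟩
  have e7 : (Vs s d (s e0)).card + 1 ≤ (Nv s d).card := by
    have h1 : s e0 ∉ Vs s d (s e0) := by
      unfold Vs
      rw [mem_filter]
      exact fun h => h.2.1 rfl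
    rw [← card_insert_of_notMem h1]
    apply card_le_card
    intro x hx
    rcases mem_insert.1 hx with h2 | h2
    · rw [h2]
      exact (hmemN e0 he0).1
    · unfold Vs at h2
      rw [mem_filter] at h2
      obtain ⟨-, -, y, hxy, e, he⟩ := h2
      rcases he with ⟨h3, h4⟩ | ⟨h3, h4⟩
      · have h5 := (hmemN e (by rw [h3, h4]; exact hxy)).1
        rwa [h3] at h5
      · have h5 := (hmemN e (by rw [h3, h4]; exact hxy.symm)).2
        rwa [h4] at h5
  rcases Nat.eq_zero_or_pos (Module.finrank (ZMod 2) (Submodule.span (ZMod 2) (Set.range K))) with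
    h | h
  · omega
  · have := e4 h
    omega

/-- defect at most three: a circuit of length at most six -/
theorem sf3_circ {h : ℕ} (hh : h ≤ 3) (s d : E → V) (hS : Sf h s d)
    (hcut : ∀ Y, crs s d Y ≠ ∅ → 3 ≤ (crs s d Y).card)
    (hnl : ∃ e, s e ≠ d e) : ∃ C, Cyc s d C ∧ C.card ≤ 6 := by
  by_contra hno
  have hNC := noC_of hno
  refine sf3_false hh s d hS (fun v => hcut {v}) (gi hNC) (Circ.three hcut hNC) ?_ hnl
  intro x hx h0
  by_contra hlt
  exact hno ⟨supp x, cyc_supp (fun e he => mem_nl.1 he) hx h0, by omega⟩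

/-- defect at most three: nowhere-zero `Z_5`-flows -/
theorem sf3_flow {h : ℕ} (hh : h ≤ 3) {src dst : E → V} (hS : Sf h src dst)
    (hb : Br src dst ∅ ∅) : FlowOn src dst ∅ ∅ := by
  by_contra hn
  obtain ⟨s, d, hs, hM⟩ := crit V E (Sf h) (sfMC h) src dst hS hb hn
  obtain ⟨hG, hT⟩ := gi_all V E s d hM
  by_cases hno : ∀ e, s e = d e
  · exact hM.nf (flow_of_loops hno)
  · push Not at hno
    refine sf3_false hh s d hs ?_ hG hT ?_ hno
    · intro v hv
      obtain ⟨e, he⟩ := nonempty_iff_ne_empty.2 hv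
      have h1 := mem_crs.1 he
      rw [mem_singleton, mem_singleton] at h1
      have hne : s e ≠ d e := fun h2 => h1 (by rw [h2])
      by_cases h2 : s e = v
      · refine cut3 V E s d hM {v} v (d e) (mem_singleton_self v) ?_ ⟨e, hne, Or.inl h2⟩
          ⟨e, hne, Or.inr rfl⟩
        rw [mem_singleton]
        exact fun h3 => hne (h2.trans h3.symm)
      · have h3 : d e = v := by
          by_contra h3
          exact h1 ⟨fun h => absurd h h2, fun h => absurd h h3⟩
        refine cut3 V E s d hM {v} v (s e) (mem_singleton_self v) ?_ ⟨e, hne, Or.inr h3⟩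
          ⟨e, hne, Or.inl rfl⟩
        rw [mem_singleton]
        exact h2
    · exact even7 V E s d (nl s d) hG (noPar V E s d hM) (fun e he => mem_nl.1 he)

/-- one apex vertex: a circuit of length at most six -/
theorem ap_circ (S D : E → V) (hAp : Ap S D)
    (hcut : ∀ Y, crs S D Y ≠ ∅ → 3 ≤ (crs S D Y).card)
    (hnl : ∃ e, S e ≠ D e) : ∃ C, Cyc S D C ∧ C.card ≤ 6 := by
  classical
  by_contra hcon
  have hNC := noC_of hcon
  have hG := gi hNC
  have hT := Circ.three hcut hNC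
  have hP : NoPar S D := fun e e' x y hxy h h' => Circ.no_par hNC hxy h h'
  obtain ⟨e0, he0⟩ := hnl
  have ha0 : Adj S D (S e0) (D e0) := ⟨he0, e0, Or.inl ⟨rfl, rfl⟩⟩
  obtain ⟨t, k, K, k1, k2, k3⟩ := hAp
  obtain ⟨v, y, hv, hvy⟩ : ∃ v y, v ≠ t ∧ Adj S D v y := by
    by_cases h : S e0 = t
    · exact ⟨D e0, S e0, fun h' => he0 (h.trans h'.symm), GiAux.adj_symm ha0⟩
    · exact ⟨S e0, D e0, h, ha0⟩
  have mem : ∀ x z, x ≠ t → Adj S D x z → x ∈ Vs S D t := by
    intro x z hx hxz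
    simp only [Vs, mem_filter, mem_univ, true_and]
    exact ⟨hx, z, hxz⟩
  have hv3 : 3 ≤ (Vs S D t).card := by
    obtain ⟨a, b, c, ha, hb', hc, hab, hac, hbc⟩ := hT v y hvy
    have two : ∃ p q, p ≠ q ∧ p ≠ t ∧ q ≠ t ∧ Adj S D v p ∧ Adj S D v q := by
      by_cases h1 : a = t
      · exact ⟨b, c, hbc, fun h => hab (h1.trans h.symm), fun h => hac (h1.trans h.symm), hb', hc⟩
      · by_cases h2 : b = t
        · exact ⟨a, c, hac, h1, fun h => hbc (h2.trans h.symm), ha, hc⟩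
        · exact ⟨a, b, hab, h1, h2, ha, hb'⟩
    obtain ⟨p, q, hpq, hpt, hqt, hp, hq⟩ := two
    refine len_le (l := [v, p, q]) ?_ ?_
    · simp only [List.nodup_cons, List.mem_cons, List.not_mem_nil, or_false, not_or,
        not_false_eq_true, List.nodup_nil, and_true]
      exact ⟨⟨hp.1, hq.1⟩, hpq⟩
    · intro x hx
      simp only [List.mem_cons, List.not_mem_nil, or_false] at hx
      rcases hx with rfl | rfl | rfl
      · exact mem _ _ hv hvy
      · exact mem _ _ hpt (GiAux.adj_symm hp)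
      · exact mem _ _ hqt (GiAux.adj_symm hq)
  have e1 := dim V E S D (Es S D t) (Vs S D t) (card_pos.mp (by omega)) (by
    intro e he
    unfold Es at he
    rw [mem_filter] at he
    obtain ⟨_, h1, h2, h3'⟩ := he
    exact ⟨mem _ (D e) h2 ⟨h1, e, Or.inl ⟨rfl, rfl⟩⟩,
      mem _ (S e) h3' ⟨Ne.symm h1, e, Or.inr ⟨rfl, rfl⟩⟩⟩)
  have e2 := Pool.Agent.TH676.Z.deg V E S D t hT hP
  have e3 := ball V E S D t hG hT
  have e4 := faces V E S D (Es S D t) k K k1 k2 (even7 V E S D (Es S D t) hG hP (by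
    intro e he
    unfold Es at he
    rw [mem_filter] at he
    exact he.2.1))
  exact Pool.Agent.TH676.Z.num e1 e2 e3 e4 k3 hv3

open Pool.Agent.TH497.TW in
/-- treewidth six: a circuit of length at most six -/
theorem tw_circ (s d : E → V) (hTD : HasTD 7 s d)
    (hcut : ∀ Y, crs s d Y ≠ ∅ → 3 ≤ (crs s d Y).card)
    (hnl : ∃ e, s e ≠ d e) : ∃ C, Cyc s d C ∧ C.card ≤ 6 := by
  by_contra hno
  have hNC := noC_of hno
  obtain ⟨In, hB⟩ := bags hTD
  obtain ⟨e, he⟩ := hnl
  exact graph_all V (Adj s d) In (gi hNC) (Circ.three hcut hNC) hB (s e) (d e)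
    ⟨he, e, Or.inl ⟨rfl, rfl⟩⟩

theorem pos_sf1 {h : ℕ} (hh : h ≤ 1) {q : ℝ} (hq : 5 < q) {src dst : E → V} (hS : Sf h src dst)
    (hb : Br src dst ∅ ∅) : 0 < m (gm src dst) q ⊥ univ :=
  pos (sfMC h) 5 (by linarith) (by exact_mod_cast hq)
    (fun s d h1 h2 h3 => sf_circ dim (Or.inl ⟨hh, rfl⟩) s d h1 h2 h3) hS hb

theorem pos_sf {h : ℕ} (hh : 2 ≤ h) {q : ℝ} (hq : 2 * (h : ℝ) + 2 < q) {src dst : E → V}
    (hS : Sf h src dst) (hb : Br src dst ∅ ∅) : 0 < m (gm src dst) q ⊥ univ := by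
  have h2 : (2 : ℝ) ≤ h := by exact_mod_cast hh
  exact pos (sfMC h) (2 * h + 2) (by linarith) (by push_cast; exact hq)
    (fun s d h1 h2 h3 => sf_circ dim (Or.inr ⟨hh, rfl⟩) s d h1 h2 h3) hS hb

theorem pos_sf3 {h : ℕ} (hh : h ≤ 3) {q : ℝ} (hq : 6 < q) {src dst : E → V} (hS : Sf h src dst)
    (hb : Br src dst ∅ ∅) : 0 < m (gm src dst) q ⊥ univ :=
  pos (sfMC h) 6 (by linarith) (by exact_mod_cast hq)
    (fun s d h1 h2 h3 => sf3_circ hh s d h1 h2 h3) hS hb

theorem pos_ap {q : ℝ} (hq : 6 < q) {src dst : E → V} (hS : Ap src dst)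
    (hb : Br src dst ∅ ∅) : 0 < m (gm src dst) q ⊥ univ :=
  pos (apMC macDel macCon V E) 6 (by linarith) (by exact_mod_cast hq) ap_circ hS hb

open Pool.Agent.TH497.TW in
theorem pos_tw {q : ℝ} (hq : 6 < q) {src dst : E → V} (hS : HasTD 7 src dst)
    (hb : Br src dst ∅ ∅) : 0 < m (gm src dst) q ⊥ univ :=
  pos (mc 7) 6 (by linarith) (by exact_mod_cast hq) tw_circ hS hb

open Pool.Agent.TH497.PW in
/-- a nowhere-zero `Z_5`-flow gives an integer flow -/
theorem int_of {src dst : E → V} (h : FlowOn src dst ∅ ∅) :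
    ∃ f : E → ℤ, (∀ e, 1 ≤ |f e| ∧ |f e| ≤ 4) ∧
      ∀ v, ∑ e ∈ univ.filter (fun e => src e = v), f e =
        ∑ e ∈ univ.filter (fun e => dst e = v), f e := by
  have hN : NZF src dst := by
    obtain ⟨f, h1, _, h3⟩ := h
    refine ⟨f, fun e => h3 e (Finset.notMem_empty _) (Finset.notMem_empty _), fun x => ?_⟩
    rw [← h1 x]
    unfold Pool.Agent.TH676.Z.bd
    refine Finset.sum_congr rfl fun e _ => ?_
    unfold ic
    by_cases h4 : src e = x <;> by_cases h5 : dst e = x <;> simp [h4, h5]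
  obtain ⟨F, hF, hF0⟩ := int_flow src dst hN
  refine ⟨F, hF, fun v => ?_⟩
  rw [Finset.sum_filter, Finset.sum_filter, ← sub_eq_zero, ← Finset.sum_sub_distrib]
  refine (Finset.sum_congr rfl fun e _ => ?_).trans (hF0 v)
  by_cases h1 : src e = v <;> by_cases h2 : dst e = v <;> simp [h1, h2]

end Pool.Agent.TH475.FL
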