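import Pool.Agent.TH676.Z.Crit
import Pool.Agent.H753R2.FR.T_A2

/-!
# Flow polynomials of graphs in minor-closed classes with short circuits (helper475)

For a real `q > k`: if every 3-edge-connected graph of a minor-closed class has a circuit with at most
`k` edges then the flow polynomials of the bridgeless graphs of the class are positive at `q`.
-/

set_option autoImplicit false

open Finset

namespace Pool.Agent.TH475.FL

open Pool.Agent.H753R2.FR Pool.Agent.TH676.Z Pool.Agent.TH676.Z.Crit

variable {V E : Type} [Fintype V] [DecidableEq V] [Fintype E] [DecidableEq E]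

/-- the graph -/
def gm (src dst : E → V) : MG V E := ⟨src, dst⟩

theorem conn_lp {src dst : E → V} {e : E} {A : Finset E} (h : e ∉ A) :
    conn (gm src (Pool.Agent.TH676.Z.lp src dst {e})) A = conn (gm src dst) A := by
  unfold conn
  refine Finset.sup_congr rfl fun f hf => ?_
  have hfe : f ≠ e := fun h1 => h (h1 ▸ hf)
  show pr (src f) (Pool.Agent.TH676.Z.lp src dst {e} f) = pr (src f) (dst f)
  unfold Pool.Agent.TH676.Z.lp
  rw [if_neg (by rwa [mem_singleton])]

theorem m_lp {q : ℝ} {src dst : E → V} {e : E} {J S : Finset E} (hJ : e ∉ J) (hS : e ∉ S) :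
    m (gm src (Pool.Agent.TH676.Z.lp src dst {e})) q (conn (gm src (Pool.Agent.TH676.Z.lp src dst {e})) J) S =
      m (gm src dst) q (conn (gm src dst) J) S := by
  unfold m
  refine sum_congr rfl fun A hA => ?_
  rw [conn_lp hJ, conn_lp (fun h => hS (mem_powerset.1 hA h))]

theorem ctr_ne {u v : V} (huv : u ≠ v) (x : V) : ctr u v x ≠ v := by
  unfold ctr
  split_ifs with h
  · exact huv
  · exact h

theorem conn_ctr {src dst : E → V} {u v : V} (A : Finset E) :
    conn (gm (ctr u v ∘ src) (ctr u v ∘ dst)) A ⊔ pr u v = conn (gm src dst) A ⊔ pr u v := by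
  have key : ∀ s : Setoid V, s u v → ∀ x, s (ctr u v x) x := by
    intro s hs x
    unfold ctr
    split_ifs with h
    · rw [h]
      exact hs
    · exact s.refl x
  have hp : ∀ r : Setoid V, (r ⊔ pr u v) u v := fun r =>
    pr_le_iff.1 (le_sup_right : pr u v ≤ r ⊔ pr u v)
  apply le_antisymm
  · refine sup_le ((conn_le_iff _).2 fun f hf => ?_) le_sup_right
    have h1 : (conn (gm src dst) A ⊔ pr u v) (src f) (dst f) := by
      have h2 : conn (gm src dst) A ≤ conn (gm src dst) A ⊔ pr u v := le_sup_left
      exact h2 ((conn_le_iff (gm src dst)).1 le_rfl f hf)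
    have k := key _ (hp (conn (gm src dst) A))
    exact Setoid.trans' _ (k (src f)) (Setoid.trans' _ h1 (Setoid.symm' _ (k (dst f))))
  · refine sup_le ((conn_le_iff _).2 fun f hf => ?_) le_sup_right
    have h1 : (conn (gm (ctr u v ∘ src) (ctr u v ∘ dst)) A ⊔ pr u v) (ctr u v (src f))
        (ctr u v (dst f)) := by
      have h2 : conn (gm (ctr u v ∘ src) (ctr u v ∘ dst)) A ≤
        conn (gm (ctr u v ∘ src) (ctr u v ∘ dst)) A ⊔ pr u v := le_sup_left
      exact h2 ((conn_le_iff (gm (ctr u v ∘ src) (ctr u v ∘ dst))).1 le_rfl f hf)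
    have k := key _ (hp (conn (gm (ctr u v ∘ src) (ctr u v ∘ dst)) A))
    exact Setoid.trans' _ (Setoid.symm' _ (k (src f))) (Setoid.trans' _ h1 (k (dst f)))

theorem cl_ctr {src dst : E → V} {u v : V} (huv : u ≠ v) (A : Finset E) :
    cl (conn (gm (ctr u v ∘ src) (ctr u v ∘ dst)) A) = cl (conn (gm src dst) A ⊔ pr u v) + 1 := by
  rw [← conn_ctr, cl_sup_pr_of_not]
  intro h
  have h1 : conn (gm (ctr u v ∘ src) (ctr u v ∘ dst)) A ≤ mg (univ.erase v) := by
    refine (conn_le_iff _).2 fun f _ => Or.inr ⟨?_, ?_⟩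
    · exact mem_erase.2 ⟨ctr_ne huv _, mem_univ _⟩
    · exact mem_erase.2 ⟨ctr_ne huv _, mem_univ _⟩
  rcases h1 h with h2 | h2
  · exact huv h2
  · exact absurd h2.2 (notMem_erase v univ)

theorem m_ctr {q : ℝ} {src dst : E → V} {e : E} (he : src e ≠ dst e) (J S : Finset E) :
    m (gm (ctr (src e) (dst e) ∘ src) (ctr (src e) (dst e) ∘ dst)) q
      (conn (gm (ctr (src e) (dst e) ∘ src) (ctr (src e) (dst e) ∘ dst)) J) S =
      q * m (gm src dst) q (conn (gm src dst) (insert e J)) S := by
  unfold m
  rw [mul_sum]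
  refine sum_congr rfl fun A _ => ?_
  rw [← conn_union, cl_ctr he, conn_insert, sup_assoc, sup_comm (pr _ _), ← sup_assoc, ← conn_union,
    pow_succ]
  show _ * (_ * q) = q * (_ * q ^ cl (conn (gm src dst) (J ∪ A) ⊔ pr (src e) (dst e)))
  ring

/-- conn of loops -/
theorem conn_loops {src dst : E → V} {J : Finset E} (h : ∀ e ∈ J, src e = dst e) :
    conn (gm src dst) J = ⊥ := by
  rw [eq_bot_iff, conn_le_iff]
  intro e he
  show (⊥ : Setoid V) (src e) (dst e)
  rw [h e he]

/-- all minors have nonnegative flow polynomials at `q` -/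
def NN0 (q : ℝ) (src dst : E → V) : Prop :=
  ∀ J S : Finset E, Disjoint J S → 0 ≤ m (gm src dst) q (conn (gm src dst) J) S

/-- the contractions have positive flow polynomials at `q` -/
def PP (q : ℝ) (src dst : E → V) : Prop :=
  Br src dst ∅ ∅ → ∀ J : Finset E, 0 < m (gm src dst) q (conn (gm src dst) J) (univ \ J)

/-- a set of proper edges in which the ends of every edge are connected by the others -/
structure Cyc (src dst : E → V) (C : Finset E) : Prop where
  ne : C.Nonempty
  nl : ∀ e ∈ C, src e ≠ dst e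
  cyc : ∀ e ∈ C, (conn (gm src dst) (C.erase e)) (src e) (dst e)

section step

variable {q : ℝ} {src dst : E → V}

/-- the proper minors have nonnegative flow polynomials -/
def PM (q : ℝ) (src dst : E → V) : Prop :=
  ∀ J S : Finset E, Disjoint J S → (∃ e, e ∉ S ∧ src e ≠ dst e) →
    0 ≤ m (gm src dst) q (conn (gm src dst) J) S

theorem contr_le (hq : 1 < q) (hPM : PM q src dst) {O : Finset E} (K : Finset E) :
    ∀ J : Finset E, Disjoint J (O ∪ K) → Disjoint O K → (∀ e ∈ K, src e ≠ dst e) →
      m (gm src dst) q (conn (gm src dst) J) (O ∪ K) ≤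
        (1 + 1 / (q - 1)) ^ K.card * m (gm src dst) q (conn (gm src dst) (J ∪ K)) O := by
  have hp : 0 < 1 / (q - 1) := by
    have : 0 < q - 1 := by linarith
    positivity
  induction K using Finset.induction_on with
  | empty =>
    intro J _ _ _
    simp
  | insert c K hc ih =>
    intro J hJ hO hnl
    rw [union_insert] at hJ ⊢
    rw [disjoint_insert_right] at hJ hO
    have hcO : c ∉ O ∪ K := by
      rw [mem_union]
      rintro (h | h)
      · exact hO.1 h
      · exact hc h
    rw [m_insert _ _ hcO]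
    have h1 : 0 ≤ m (gm src dst) q (conn (gm src dst) J) (O ∪ K) :=
      hPM J _ hJ.2 ⟨c, hcO, hnl c (mem_insert_self c K)⟩
    have h2 := ih (insert c J) (by
      rw [disjoint_insert_left]
      exact ⟨hcO, hJ.2⟩) hO.2 (fun e he => hnl e (mem_insert_of_mem he))
    rw [conn_insert] at h2
    have h3 : insert c J ∪ K = J ∪ insert c K := by
      rw [union_insert, insert_union]
    rw [h3] at h2
    rw [card_insert_of_notMem hc, pow_succ]
    have h4 : (1 + 1 / (q - 1)) *
        m (gm src dst) q (conn (gm src dst) J ⊔ pr ((gm src dst).x c) ((gm src dst).y c)) (O ∪ K) ≤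
        (1 + 1 / (q - 1)) * ((1 + 1 / (q - 1)) ^ K.card *
          m (gm src dst) q (conn (gm src dst) (J ∪ insert c K)) O) :=
      mul_le_mul_of_nonneg_left h2 (by positivity)
    have h5 : 0 ≤ 1 / (q - 1) * m (gm src dst) q (conn (gm src dst) J) (O ∪ K) :=
      mul_nonneg hp.le h1
    nlinarith [h4, h5]

theorem cyc_conn {C : Finset E} (hC : Cyc src dst C) {e : E} (he : e ∈ C) :
    conn (gm src dst) (C.erase e) = conn (gm src dst) C := by
  apply le_antisymm (conn_mono _ (erase_subset e C))
  rw [conn_le_iff]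
  intro f hf
  by_cases h : f = e
  · subst h
    exact hC.cyc f hf
  · exact (conn_le_iff (gm src dst)).1 le_rfl f (mem_erase.2 ⟨h, hf⟩)

/-- the inequality for a circuit -/
theorem cyc_ge (hq : 1 < q) (hPM : PM q src dst) {C : Finset E} (hC : Cyc src dst C) :
    ∀ K : Finset E, K.Nonempty → K ⊆ C →
      (1 + 1 / (q - 1)) ^ (K.card - 1) * (1 - (K.card - 1 : ℝ) * (1 / (q - 1))) *
        m (gm src dst) q (conn (gm src dst) C) (univ \ C) ≤
      m (gm src dst) q (conn (gm src dst) (C \ K)) ((univ \ C) ∪ K) := by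
  have hp : 0 < 1 / (q - 1) := by
    have : 0 < q - 1 := by linarith
    positivity
  intro K hK
  induction hK using Finset.Nonempty.cons_induction with
  | singleton c =>
    intro hcC
    have hc : c ∈ C := hcC (mem_singleton_self c)
    have h1 : C \ {c} = C.erase c := sdiff_singleton_eq_erase c C
    have h2 : m (gm src dst) q (conn (gm src dst) (C.erase c)) ((univ \ C) ∪ {c}) =
        m (gm src dst) q (conn (gm src dst) (C.erase c)) (univ \ C) := by
      apply m_loops
      intro e he
      rw [mem_singleton] at he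
      subst he
      exact hC.cyc e hc
    rw [h1, h2, cyc_conn hC hc, card_singleton]
    simp
  | cons c K hc hK ih =>
    intro hsub
    rw [cons_eq_insert] at hsub ⊢
    have hcC : c ∈ C := hsub (mem_insert_self c K)
    have hKC : K ⊆ C := fun e he => hsub (mem_insert_of_mem he)
    have ih' := ih hKC
    have hcO : c ∉ (univ \ C) ∪ K := by
      rw [mem_union, mem_sdiff]
      rintro (h | h)
      · exact h.2 hcC
      · exact hc h
    rw [union_insert, m_insert _ _ hcO]
    have e1 : conn (gm src dst) (C \ insert c K) ⊔ pr ((gm src dst).x c) ((gm src dst).y c) =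
        conn (gm src dst) (C \ K) := by
      rw [← conn_insert]
      congr 1
      ext x
      rw [mem_insert, mem_sdiff, mem_sdiff, mem_insert, not_or]
      constructor
      · rintro (h | h)
        · subst h
          exact ⟨hcC, hc⟩
        · exact ⟨h.1, h.2.2⟩
      · rintro ⟨h1, h2⟩
        by_cases h3 : x = c
        · exact Or.inl h3
        · exact Or.inr ⟨h1, h3, h2⟩
    rw [e1]
    have hX := contr_le hq hPM (O := univ \ C) K (C \ insert c K) (by
      rw [disjoint_union_right]
      constructor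
      · rw [disjoint_left]
        intro x hx hx'
        exact (mem_sdiff.1 hx').2 (mem_sdiff.1 hx).1
      · rw [disjoint_left]
        intro x hx hx'
        exact (mem_sdiff.1 hx).2 (mem_insert_of_mem hx')) (by
      rw [disjoint_left]
      intro x hx hx'
      exact (mem_sdiff.1 hx).2 (hKC hx')) (fun e he => hC.nl e (hKC he))
    have e2 : C \ insert c K ∪ K = C.erase c := by
      ext x
      rw [mem_union, mem_sdiff, mem_insert, mem_erase, not_or]
      constructor
      · rintro (h | h)
        · exact ⟨h.2.1, h.1⟩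
        · exact ⟨fun h1 => hc (h1 ▸ h), hKC h⟩
      · rintro ⟨h1, h2⟩
        by_cases h3 : x ∈ K
        · exact Or.inr h3
        · exact Or.inl ⟨h2, h1, h3⟩
    rw [e2, cyc_conn hC hcC] at hX
    rw [card_insert_of_notMem hc]
    have hK1 : 1 ≤ K.card := card_pos.2 hK
    obtain ⟨j, hj⟩ : ∃ j, K.card = j + 1 := ⟨K.card - 1, by omega⟩
    rw [hj] at ih' hX ⊢
    set M := m (gm src dst) q (conn (gm src dst) C) (univ \ C) with hM
    set p := 1 / (q - 1) with hpd
    have h6 : (1 + p) * ((1 + p) ^ (j + 1 - 1) * (1 - ((j + 1 : ℕ) - 1 : ℝ) * p) * M) ≤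
        (1 + p) * m (gm src dst) q (conn (gm src dst) (C \ K)) ((univ \ C) ∪ K) :=
      mul_le_mul_of_nonneg_left ih' (by positivity)
    have h7 : p * m (gm src dst) q (conn (gm src dst) (C \ insert c K)) ((univ \ C) ∪ K) ≤
        p * ((1 + p) ^ (j + 1) * M) := mul_le_mul_of_nonneg_left hX hp.le
    have h8 : (1 + p) ^ (j + 1 + 1 - 1) * (1 - ((j + 1 + 1 : ℕ) - 1 : ℝ) * p) * M =
        (1 + p) * ((1 + p) ^ (j + 1 - 1) * (1 - ((j + 1 : ℕ) - 1 : ℝ) * p) * M) -
          p * ((1 + p) ^ (j + 1) * M) := by
      simp only [Nat.add_sub_cancel]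
      push_cast
      ring
    rw [h8]
    linarith

end step

end Pool.Agent.TH475.FL
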