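import Pool.Agent.TH475.FL.Core

set_option autoImplicit false

open Finset

namespace Pool.Agent.TH475.FL

open Pool.Agent.H753R2.FR Pool.Agent.TH676.Z Pool.Agent.TH676.Z.Crit

variable {V E : Type} [Fintype V] [DecidableEq V] [Fintype E] [DecidableEq E]
variable {q : ℝ} {src dst : E → V}

theorem m_all {J S : Finset E} (hJS : Disjoint J S) (h : ∀ e, e ∉ S → src e = dst e) :
    m (gm src dst) q (conn (gm src dst) J) S = m (gm src dst) q ⊥ univ := by
  have h1 : conn (gm src dst) J = ⊥ :=
    conn_loops fun e he => h e (fun hS => disjoint_left.1 hJS he hS)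
  have h2 := m_loops (gm src dst) q (S := univ \ S) (O := S) ⊥ (by
    intro e he
    show (⊥ : Setoid V) (src e) (dst e)
    rw [h e (mem_sdiff.1 he).2])
  rw [h1, ← h2, union_sdiff_of_subset (subset_univ S)]

/-- the setoid of the sides of `Y` -/
def side (Y : Finset V) : Setoid V where
  r a b := a ∈ Y ↔ b ∈ Y
  iseqv := ⟨fun _ => Iff.rfl, fun h => h.symm, fun h1 h2 => h1.trans h2⟩

theorem m_cut (hq : 1 < q) {J S : Finset E} {e : E} (he : e ∉ S) {Y : Finset V}
    (heY : ¬ (src e ∈ Y ↔ dst e ∈ Y)) (hS : ∀ f ∈ S, (src f ∈ Y ↔ dst f ∈ Y))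
    (hJ : ∀ f ∈ J, (src f ∈ Y ↔ dst f ∈ Y)) :
    m (gm src dst) q (conn (gm src dst) J) (insert e S) = 0 := by
  apply m_bridge _ _ hq he
  intro h1
  have h2 : conn (gm src dst) J ⊔ conn (gm src dst) S ≤ side Y :=
    sup_le ((conn_le_iff _).2 hJ) ((conn_le_iff _).2 hS)
  exact heY (h2 h1)

/-- **The induction.** -/
theorem core {Cl : (E → V) → (E → V) → Prop} (hCl : MC Cl) (k : ℕ) (hq : 1 < q) (hkq : (k : ℝ) < q)
    (hcirc : ∀ s d : E → V, Cl s d → (∀ Y, crs s d Y ≠ ∅ → 3 ≤ (crs s d Y).card) →
      (∃ e, s e ≠ d e) → ∃ C, Cyc s d C ∧ C.card ≤ k) :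
    ∀ (N : ℕ) (src dst : E → V), Cl src dst → (nl src dst).card = N →
      NN0 q src dst ∧ PP q src dst := by
  intro N
  induction N using Nat.strong_induction_on with
  | _ N ih =>
  intro src dst hG hN
  have hq0 : 0 < q := by linarith
  have hp : 0 < 1 / (q - 1) := by
    have : 0 < q - 1 := by linarith
    positivity
  have ihN : ∀ s d, Cl s d → (nl s d).card < N → NN0 q s d ∧ PP q s d :=
    fun s d h1 h2 => ih _ h2 s d h1 rfl
  have hctr : ∀ e, src e ≠ dst e → NN0 q (ctr (src e) (dst e) ∘ src) (ctr (src e) (dst e) ∘ dst) ∧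
      PP q (ctr (src e) (dst e) ∘ src) (ctr (src e) (dst e) ∘ dst) := by
    intro e he
    refine ihN _ _ (hCl.con src dst e hG he) ?_
    rw [← hN]
    exact card_lt_card ⟨nl_ctr_sub _ _, fun h => not_nl_ctr e (h (mem_nl.2 he))⟩
  -- proper minors
  have hPM : PM q src dst := by
    rintro J S hJS ⟨e, heS, he⟩
    by_cases heJ : e ∈ J
    · have h1 := m_ctr (q := q) he (J.erase e) S
      rw [insert_erase heJ] at h1
      have h2 := (hctr e he).1 (J.erase e) S (disjoint_of_subset_left (erase_subset e J) hJS)
      rw [h1] at h2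
      exact nonneg_of_mul_nonneg_right h2 hq0
    · rw [← m_lp heJ heS]
      refine (ihN _ _ (hCl.del src dst e hG he) ?_).1 J S hJS
      rw [nl_lp, ← hN]
      exact card_erase_lt_of_mem (mem_nl.2 he)
  -- contractions
  have hPC : Br src dst ∅ ∅ → ∀ J : Finset E, (∃ e ∈ J, src e ≠ dst e) →
      0 < m (gm src dst) q (conn (gm src dst) J) (univ \ J) := by
    rintro hb J ⟨e, heJ, he⟩
    have hb' : Br (ctr (src e) (dst e) ∘ src) (ctr (src e) (dst e) ∘ dst) ∅ ∅ := by
      intro Y _
      rw [crs_ctr]
      exact hb _ (disjoint_empty_right _)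
    have h1 := m_ctr (q := q) he (J.erase e) (univ \ J)
    rw [insert_erase heJ] at h1
    have h2 := (hctr e he).2 hb' (J.erase e)
    have h3 : univ \ J.erase e = (univ \ J) ∪ {e} := by
      ext x
      simp only [mem_sdiff, mem_univ, true_and, mem_erase, mem_union, mem_singleton, not_and_or,
        not_not, ne_eq]
      tauto
    rw [h3, m_loops _ _ _ (S := {e}) (fun f hf => by
      rw [mem_singleton] at hf
      subst hf
      have h4 : (gm (ctr (src f) (dst f) ∘ src) (ctr (src f) (dst f) ∘ dst)).x f =
          (gm (ctr (src f) (dst f) ∘ src) (ctr (src f) (dst f) ∘ dst)).y f := by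
        show ctr (src f) (dst f) (src f) = ctr (src f) (dst f) (dst f)
        unfold ctr
        simp
      rw [h4]), h1] at h2
    exact (mul_pos_iff_of_pos_left hq0).1 h2
  have hconn0 : conn (gm src dst) ∅ = ⊥ := conn_empty _
  -- the graph itself
  have htop : 0 ≤ m (gm src dst) q ⊥ univ ∧
      (Br src dst ∅ ∅ → 0 < m (gm src dst) q ⊥ univ) := by
    by_cases hnl : ∃ e, src e ≠ dst e
    · by_cases hbr : Br src dst ∅ ∅
      · suffices h : 0 < m (gm src dst) q ⊥ univ from ⟨h.le, fun _ => h⟩
        by_cases h2 : ∃ Y, (crs src dst Y).card = 2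
        · -- a cut with two edges
          obtain ⟨Y, hY⟩ := h2
          obtain ⟨e, f, hef, hYe⟩ := card_eq_two.1 hY
          have heY : ¬ (src e ∈ Y ↔ dst e ∈ Y) := mem_crs.1 (by rw [hYe]; simp)
          have hfY : ¬ (src f ∈ Y ↔ dst f ∈ Y) := mem_crs.1 (by rw [hYe]; simp)
          have hoY : ∀ x ∈ (univ.erase e).erase f, (src x ∈ Y ↔ dst x ∈ Y) := by
            intro x hx
            by_contra h3
            have h4 := mem_crs.2 h3
            rw [hYe, mem_insert, mem_singleton] at h4
            rw [mem_erase, mem_erase] at hx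
            rcases h4 with h4 | h4
            · exact hx.2.1 h4
            · exact hx.1 h4
          have he : src e ≠ dst e := fun h3 => heY (by rw [h3])
          have h3 : (univ : Finset E) = insert e (univ.erase e) := (insert_erase (mem_univ e)).symm
          have h4 : (univ : Finset E).erase e = insert f ((univ.erase e).erase f) :=
            (insert_erase (mem_erase.2 ⟨hef.symm, mem_univ f⟩)).symm
          have h5 : m (gm src dst) q ⊥ (univ.erase e) = 0 := by
            rw [← hconn0, h4]
            exact m_cut hq (notMem_erase f _) hfY hoY (fun x hx => absurd hx (notMem_empty x))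
          rw [h3, m_insert _ _ (notMem_erase e univ), h5, mul_zero, sub_zero]
          have h6 := hPC hbr {e} ⟨e, mem_singleton_self e, he⟩
          have h7 : conn (gm src dst) {e} = ⊥ ⊔ pr ((gm src dst).x e) ((gm src dst).y e) := by
            rw [← hconn0, ← conn_insert, insert_empty_eq]
          rw [h7, sdiff_singleton_eq_erase] at h6
          exact mul_pos (by positivity) h6
        · push Not at h2
          obtain ⟨C, hC, hCk⟩ := hcirc src dst hG (by
            intro Y hY
            have h3 : (crs src dst Y).card ≠ 0 := fun h => hY (card_eq_zero.1 h)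
            have h4 : (crs src dst Y).card ≠ 1 := by
              have := hbr Y (disjoint_empty_right _)
              rwa [sdiff_empty] at this
            have h5 := h2 Y
            omega) hnl
          have h3 := cyc_ge hq hPM hC C hC.ne Subset.rfl
          have hCC : C \ C = ∅ := by simp
          rw [hCC, hconn0, sdiff_union_of_subset (subset_univ C)] at h3
          obtain ⟨e, he⟩ := hC.ne
          have h4 := hPC hbr C ⟨e, he, hC.nl e he⟩
          refine lt_of_lt_of_le (mul_pos (mul_pos (by positivity) ?_) h4) h3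
          have h5 : (C.card : ℝ) < q := lt_of_le_of_lt (by exact_mod_cast hCk) hkq
          have h6 : (C.card - 1 : ℝ) * (1 / (q - 1)) < 1 := by
            rw [mul_one_div, div_lt_one (by linarith)]
            linarith
          linarith
      · refine ⟨?_, fun h => absurd h hbr⟩
        unfold Br at hbr
        push Not at hbr
        obtain ⟨Y, -, hY⟩ := hbr
        rw [sdiff_empty] at hY
        obtain ⟨e, hYe⟩ := card_eq_one.1 hY
        have heY : ¬ (src e ∈ Y ↔ dst e ∈ Y) := mem_crs.1 (by rw [hYe]; simp)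
        have h3 : (univ : Finset E) = insert e (univ.erase e) := (insert_erase (mem_univ e)).symm
        rw [← hconn0, h3, m_cut hq (notMem_erase e _) heY ?_ (fun x hx => absurd hx (notMem_empty x))]
        intro x hx
        by_contra h4
        have h5 := mem_crs.2 h4
        rw [hYe, mem_singleton] at h5
        exact (mem_erase.1 hx).1 h5
    · push Not at hnl
      have h1 := m_all (q := q) (src := src) (dst := dst) (J := ∅) (S := ∅) (disjoint_empty_left _)
        (fun e _ => hnl e)
      rw [hconn0, m_empty] at h1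
      have h2 : 0 < m (gm src dst) q ⊥ univ := by
        rw [← h1]
        positivity
      exact ⟨h2.le, fun _ => h2⟩
  refine ⟨fun J S hJS => ?_, fun hb J => ?_⟩
  · by_cases h : ∃ e, e ∉ S ∧ src e ≠ dst e
    · exact hPM J S hJS h
    · push Not at h
      rw [m_all hJS h]
      exact htop.1
  · by_cases h : ∃ e ∈ J, src e ≠ dst e
    · exact hPC hb J h
    · push Not at h
      rw [m_all (disjoint_sdiff) (fun e he => h e (by simpa using he))]
      exact htop.2 hb

/-- **Flow polynomials are positive at `q > k`.** -/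
theorem pos {Cl : (E → V) → (E → V) → Prop} (hCl : MC Cl) (k : ℕ) (hq : 1 < q) (hkq : (k : ℝ) < q)
    (hcirc : ∀ s d : E → V, Cl s d → (∀ Y, crs s d Y ≠ ∅ → 3 ≤ (crs s d Y).card) →
      (∃ e, s e ≠ d e) → ∃ C, Cyc s d C ∧ C.card ≤ k) (h : Cl src dst) (hb : Br src dst ∅ ∅) :
    0 < m (gm src dst) q ⊥ univ := by
  have h1 := (core hCl k hq hkq hcirc _ src dst h rfl).2 hb ∅
  rwa [conn_empty, sdiff_empty] at h1

end Pool.Agent.TH475.FL
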